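import Pool.Agent.KLev.Levels

/-!
# Upper bound for the complexity of a level in terms of the number of directions
-/

namespace Pool.Agent.Y375.FD

open KLev.Levels Finset Filter Topology

/-- lines strictly below the point `p`, or through `p` and steeper than `s` -/
noncomputable def LS (Γ : Finset (ℝ × ℝ)) (p : ℝ × ℝ) (s : ℝ) : Finset (ℝ × ℝ) :=
  open Classical in Γ.filter (fun j => height j p.1 < p.2 ∨ (height j p.1 = p.2 ∧ s < j.1))

/-- lines strictly below the point `p`, or through `p` and less steep than `s` -/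
noncomputable def RS (Γ : Finset (ℝ × ℝ)) (p : ℝ × ℝ) (s : ℝ) : Finset (ℝ × ℝ) :=
  open Classical in Γ.filter (fun j => height j p.1 < p.2 ∨ (height j p.1 = p.2 ∧ j.1 < s))

/-- combinatorial description of the vertices of the `k`-level -/
def V (Γ : Finset (ℝ × ℝ)) (k : ℕ) (p l m : ℝ × ℝ) : Prop :=
  l ∈ Γ ∧ m ∈ Γ ∧ l ≠ m ∧ height l p.1 = p.2 ∧ height m p.1 = p.2 ∧
    (LS Γ p l.1).card = k ∧ (RS Γ p m.1).card = k

lemma height_cont (j : ℝ × ℝ) : Continuous (fun x : ℝ => height j x) := by
  unfold height; fun_prop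

/-- a point of the closed level on exactly one line has level `k` -/
lemma level_of_mem {Γ : Finset (ℝ × ℝ)} {k : ℕ} {l : ℝ × ℝ} {x : ℝ} (hl : l ∈ Γ)
    (hj : ∀ j ∈ Γ, j ≠ l → height j x ≠ height l x) (h : (x, height l x) ∈ kLevel Γ k) :
    level Γ (x, height l x) = k := by
  classical
  set q : ℝ × ℝ := (x, height l x) with hq
  have h1 : ∀ᶠ q' in 𝓝 q, ∀ j ∈ Γ, j ≠ l →
      (height j q'.1 ≠ q'.2 ∧ (height j q'.1 < q'.2 ↔ height j q.1 < q.2)) := by
    rw [Filter.eventually_all_finset]
    intro j hjΓ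
    by_cases hjl : j = l
    · exact Filter.Eventually.of_forall (fun _ h => absurd hjl h)
    have hne : height j q.1 ≠ q.2 := hj j hjΓ hjl
    have hc : Continuous (fun q' : ℝ × ℝ => height j q'.1) := (height_cont j).comp continuous_fst
    rcases lt_or_gt_of_ne hne with h2 | h2
    · filter_upwards [hc.continuousAt.eventually_lt continuous_snd.continuousAt h2] with q' h3 _
      exact ⟨h3.ne, fun _ => h2, fun _ => h3⟩
    · filter_upwards [continuous_snd.continuousAt.eventually_lt hc.continuousAt h2] with q' h3 _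
      exact ⟨h3.ne', fun h4 => absurd h4 (not_lt.mpr h3.le), fun h4 => absurd h4 (not_lt.mpr h2.le)⟩
  have h2 : ∃ᶠ q' in 𝓝 q, (∃ l ∈ Γ, height l q'.1 = q'.2) ∧ level Γ q' = k :=
    mem_closure_iff_frequently.mp h
  obtain ⟨q', ⟨⟨j, hjΓ, hjq⟩, hlev⟩, h3⟩ := (h2.and_eventually h1).exists
  have hjl : j = l := by
    by_contra hne
    exact (h3 j hjΓ hne).1 hjq
  subst hjl
  rw [← hlev]
  unfold level
  congr 1
  apply Finset.filter_congr
  intro i hi
  by_cases hij : i = j
  · subst hij
    simp only [hq, hjq, lt_irrefl]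
  · exact (h3 i hi hij).2.symm

lemma left_level {Γ : Finset (ℝ × ℝ)} {k : ℕ} {p l : ℝ × ℝ} (hl : l ∈ Γ)
    (hlp : height l p.1 = p.2) {δ : ℝ} (hδ : 0 < δ)
    (h : ∀ x, p.1 - δ < x → x < p.1 → (x, height l x) ∈ kLevel Γ k) :
    (LS Γ p l.1).card = k := by
  classical
  have h1 : ∀ᶠ x in 𝓝[<] p.1, ∀ j ∈ Γ, j ≠ l → (height j x ≠ height l x ∧
      (height j x < height l x ↔ (height j p.1 < p.2 ∨ (height j p.1 = p.2 ∧ l.1 < j.1)))) := by
    rw [Filter.eventually_all_finset]
    intro j hjΓ
    by_cases hjl : j = l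
    · exact Filter.Eventually.of_forall (fun _ h => absurd hjl h)
    rcases lt_trichotomy (height j p.1) p.2 with h2 | h2 | h2
    · have h3 : height j p.1 < height l p.1 := by rw [hlp]; exact h2
      have h4 : ∀ᶠ x in 𝓝[<] p.1, height j x < height l x :=
        ((height_cont j).continuousAt.eventually_lt (height_cont l).continuousAt h3).filter_mono
          nhdsWithin_le_nhds
      filter_upwards [h4] with x hx _
      exact ⟨hx.ne, fun _ => Or.inl h2, fun _ => hx⟩
    · have hs : j.1 ≠ l.1 := by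
        intro hs
        apply hjl
        refine Prod.ext hs ?_
        unfold height at h2 hlp
        rw [hs] at h2
        linarith
      filter_upwards [self_mem_nhdsWithin] with x hx _
      have hx' : x < p.1 := hx
      have e : height j x - height l x = (j.1 - l.1) * (x - p.1) := by
        unfold height at h2 hlp ⊢
        linear_combination h2 - hlp
      rcases lt_or_gt_of_ne hs with h5 | h5
      · have h6 : 0 < (j.1 - l.1) * (x - p.1) :=
          mul_pos_of_neg_of_neg (by linarith) (by linarith)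
        refine ⟨by intro h7; linarith, fun h7 => by linarith, ?_⟩
        rintro (h7 | ⟨-, h7⟩)
        · exact absurd h2 h7.ne
        · linarith
      · have h6 : (j.1 - l.1) * (x - p.1) < 0 :=
          mul_neg_of_pos_of_neg (by linarith) (by linarith)
        exact ⟨by intro h7; linarith, fun _ => Or.inr ⟨h2, h5⟩, fun _ => by linarith⟩
    · have h3 : height l p.1 < height j p.1 := by rw [hlp]; exact h2
      have h4 : ∀ᶠ x in 𝓝[<] p.1, height l x < height j x :=
        ((height_cont l).continuousAt.eventually_lt (height_cont j).continuousAt h3).filter_mono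
          nhdsWithin_le_nhds
      filter_upwards [h4] with x hx _
      refine ⟨hx.ne', fun h5 => absurd h5 (not_lt.mpr hx.le), ?_⟩
      rintro (h5 | ⟨h5, -⟩)
      · exact absurd h5 (not_lt.mpr h2.le)
      · exact absurd h5 h2.ne'
  have h2 : ∀ᶠ x in 𝓝[<] p.1, p.1 - δ < x ∧ x < p.1 := by
    refine Filter.Eventually.and ?_ self_mem_nhdsWithin
    exact nhdsWithin_le_nhds (Ioi_mem_nhds (by linarith))
  obtain ⟨x, hx1, hx2, hx3⟩ := (h1.and h2).exists
  have h3 := level_of_mem hl (fun j hj hjl => (hx1 j hj hjl).1) (h x hx2 hx3)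
  rw [← h3]
  unfold level LS
  congr 1
  apply Finset.filter_congr
  intro i hi
  by_cases hil : i = l
  · subst hil
    simp only [hlp, lt_irrefl, false_or, and_false]
  · exact (hx1 i hi hil).2.symm

lemma right_level {Γ : Finset (ℝ × ℝ)} {k : ℕ} {p l : ℝ × ℝ} (hl : l ∈ Γ)
    (hlp : height l p.1 = p.2) {δ : ℝ} (hδ : 0 < δ)
    (h : ∀ x, p.1 < x → x < p.1 + δ → (x, height l x) ∈ kLevel Γ k) :
    (RS Γ p l.1).card = k := by
  classical
  have h1 : ∀ᶠ x in 𝓝[>] p.1, ∀ j ∈ Γ, j ≠ l → (height j x ≠ height l x ∧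
      (height j x < height l x ↔ (height j p.1 < p.2 ∨ (height j p.1 = p.2 ∧ j.1 < l.1)))) := by
    rw [Filter.eventually_all_finset]
    intro j hjΓ
    by_cases hjl : j = l
    · exact Filter.Eventually.of_forall (fun _ h => absurd hjl h)
    rcases lt_trichotomy (height j p.1) p.2 with h2 | h2 | h2
    · have h3 : height j p.1 < height l p.1 := by rw [hlp]; exact h2
      have h4 : ∀ᶠ x in 𝓝[>] p.1, height j x < height l x :=
        ((height_cont j).continuousAt.eventually_lt (height_cont l).continuousAt h3).filter_mono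
          nhdsWithin_le_nhds
      filter_upwards [h4] with x hx _
      exact ⟨hx.ne, fun _ => Or.inl h2, fun _ => hx⟩
    · have hs : j.1 ≠ l.1 := by
        intro hs
        apply hjl
        refine Prod.ext hs ?_
        unfold height at h2 hlp
        rw [hs] at h2
        linarith
      filter_upwards [self_mem_nhdsWithin] with x hx _
      have hx' : p.1 < x := hx
      have e : height j x - height l x = (j.1 - l.1) * (x - p.1) := by
        unfold height at h2 hlp ⊢
        linear_combination h2 - hlp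
      rcases lt_or_gt_of_ne hs with h5 | h5
      · have h6 : (j.1 - l.1) * (x - p.1) < 0 :=
          mul_neg_of_neg_of_pos (by linarith) (by linarith)
        exact ⟨by intro h7; linarith, fun _ => Or.inr ⟨h2, h5⟩, fun _ => by linarith⟩
      · have h6 : 0 < (j.1 - l.1) * (x - p.1) := mul_pos (by linarith) (by linarith)
        refine ⟨by intro h7; linarith, fun h7 => by linarith, ?_⟩
        rintro (h7 | ⟨-, h7⟩)
        · exact absurd h2 h7.ne
        · linarith
    · have h3 : height l p.1 < height j p.1 := by rw [hlp]; exact h2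
      have h4 : ∀ᶠ x in 𝓝[>] p.1, height l x < height j x :=
        ((height_cont l).continuousAt.eventually_lt (height_cont j).continuousAt h3).filter_mono
          nhdsWithin_le_nhds
      filter_upwards [h4] with x hx _
      refine ⟨hx.ne', fun h5 => absurd h5 (not_lt.mpr hx.le), ?_⟩
      rintro (h5 | ⟨h5, -⟩)
      · exact absurd h5 (not_lt.mpr h2.le)
      · exact absurd h5 h2.ne'
  have h2 : ∀ᶠ x in 𝓝[>] p.1, p.1 < x ∧ x < p.1 + δ := by
    refine Filter.Eventually.and self_mem_nhdsWithin ?_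
    exact nhdsWithin_le_nhds (Iio_mem_nhds (by linarith))
  obtain ⟨x, hx1, hx2, hx3⟩ := (h1.and h2).exists
  have h3 := level_of_mem hl (fun j hj hjl => (hx1 j hj hjl).1) (h x hx2 hx3)
  rw [← h3]
  unfold level RS
  congr 1
  apply Finset.filter_congr
  intro i hi
  by_cases hil : i = l
  · subst hil
    simp only [hlp, lt_irrefl, false_or, and_false]
  · exact (hx1 i hi hil).2.symm

lemma V_of_isVertex {Γ : Finset (ℝ × ℝ)} {k : ℕ} {p : ℝ × ℝ} (h : IsVertex Γ k p) :
    ∃ l m, V Γ k p l m := by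
  obtain ⟨l, hl, m, hm, hlm, hlp, hmp, δ, hδ, h1, h2⟩ := h
  exact ⟨l, m, hl, hm, hlm, hlp, hmp, left_level hl hlp hδ h1, right_level hm hmp hδ h2⟩

lemma slope_ne {p l m : ℝ × ℝ} (hlm : l ≠ m) (hl : height l p.1 = p.2)
    (hm : height m p.1 = p.2) : l.1 ≠ m.1 := by
  intro h
  apply hlm
  refine Prod.ext h ?_
  unfold height at hl hm
  rw [h] at hl
  linarith

/-- two vertices of the `k`-level have different abscissae -/
lemma V_inj {Γ : Finset (ℝ × ℝ)} {k : ℕ} {p l m q l' m' : ℝ × ℝ} (hp : V Γ k p l m)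
    (hq : V Γ k q l' m') (h : p.1 = q.1) : p = q := by
  classical
  have key : ∀ {p l m q l' m' : ℝ × ℝ}, V Γ k p l m → V Γ k q l' m' → p.1 = q.1 →
      ¬ p.2 < q.2 := by
    intro p l m q l' m' hp hq h hlt
    obtain ⟨hl, -, -, hlp, -, hL, -⟩ := hp
    obtain ⟨-, -, -, -, -, hL', -⟩ := hq
    have hsub : insert l (LS Γ p l.1) ⊆ LS Γ q l'.1 := by
      intro j hj
      rw [Finset.mem_insert] at hj
      unfold LS at hj ⊢
      rw [Finset.mem_filter] at *
      rcases hj with rfl | ⟨hjΓ, hj⟩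
      · exact ⟨hl, Or.inl (by rw [← h, hlp]; exact hlt)⟩
      · refine ⟨hjΓ, Or.inl ?_⟩
        rw [← h]
        rcases hj with hj | ⟨hj, -⟩
        · linarith
        · linarith
    have hnot : l ∉ LS Γ p l.1 := by
      unfold LS
      rw [Finset.mem_filter]
      rintro ⟨-, h1 | ⟨-, h1⟩⟩
      · linarith
      · exact lt_irrefl _ h1
    have := Finset.card_le_card hsub
    rw [Finset.card_insert_of_notMem hnot, hL, hL'] at this
    omega
  have h1 := key hp hq h
  have h2 := key hq hp h.symm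
  exact Prod.ext h (le_antisymm (not_lt.mp h2) (not_lt.mp h1))

/-- number of flat lines strictly below `p` -/
noncomputable def uu (Γ : Finset (ℝ × ℝ)) (τ : ℝ) (p : ℝ × ℝ) : ℕ :=
  open Classical in (Γ.filter (fun j => j.1 < τ ∧ height j p.1 < p.2)).card

/-- number of flat lines weakly below `p` -/
noncomputable def gg (Γ : Finset (ℝ × ℝ)) (τ : ℝ) (p : ℝ × ℝ) : ℕ :=
  open Classical in (Γ.filter (fun j => j.1 < τ ∧ height j p.1 ≤ p.2)).card

lemma height_shift (j : ℝ × ℝ) (x x' τ : ℝ) :
    height j x' - τ * x' = height j x - τ * x + (j.1 - τ) * (x' - x) := by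
  unfold height; ring

lemma concave_step {Γ : Finset (ℝ × ℝ)} {k : ℕ} {τ : ℝ} (hτ : ∀ j ∈ Γ, j.1 ≠ τ)
    {p l m q l' m' : ℝ × ℝ} (hp : V Γ k p l m) (hq : V Γ k q l' m')
    (hpc : m.1 < τ ∧ τ < l.1) (hqc : m'.1 < τ ∧ τ < l'.1) (hpq : p.1 < q.1) :
    uu Γ τ p < uu Γ τ q := by
  classical
  obtain ⟨hl, hm, -, hlp, hmp, hL, -⟩ := hp
  obtain ⟨hl', hm', -, hlq, hmq, hL', -⟩ := hq
  by_cases hY : p.2 - τ * p.1 ≤ q.2 - τ * q.1
  · unfold uu
    apply Finset.card_lt_card
    rw [Finset.ssubset_iff_of_subset]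
    · refine ⟨m, ?_, ?_⟩
      · rw [Finset.mem_filter]
        refine ⟨hm, hpc.1, ?_⟩
        have h1 := height_shift m p.1 q.1 τ
        have h2 : (m.1 - τ) * (q.1 - p.1) < 0 :=
          mul_neg_of_neg_of_pos (by linarith [hpc.1]) (by linarith)
        rw [hmp] at h1
        linarith
      · rw [Finset.mem_filter]
        rintro ⟨-, -, h1⟩
        linarith
    · intro j hj
      rw [Finset.mem_filter] at hj ⊢
      obtain ⟨h1, h2, h3⟩ := hj
      refine ⟨h1, h2, ?_⟩
      have h4 := height_shift j p.1 q.1 τ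
      have h5 : (j.1 - τ) * (q.1 - p.1) < 0 :=
        mul_neg_of_neg_of_pos (by linarith) (by linarith)
      linarith
  · push Not at hY
    -- the steep part
    have split : ∀ (p l : ℝ × ℝ), τ < l.1 → (LS Γ p l.1).card = uu Γ τ p +
        ((LS Γ p l.1).filter (fun j => τ < j.1)).card := by
      intro p l hτl
      rw [← Finset.card_filter_add_card_filter_not (s := LS Γ p l.1) (fun j => τ < j.1), add_comm]
      congr 1
      unfold uu
      congr 1
      ext j
      unfold LS
      simp only [Finset.mem_filter, not_lt]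
      constructor
      · rintro ⟨⟨h1, h2⟩, h3⟩
        have h4 : j.1 < τ := lt_of_le_of_ne h3 (hτ j h1)
        refine ⟨h1, h4, ?_⟩
        rcases h2 with h2 | ⟨-, h2⟩
        · exact h2
        · linarith
      · rintro ⟨h1, h2, h3⟩
        exact ⟨⟨h1, Or.inl h3⟩, h2.le⟩
    have s1 := split p l hpc.2
    have s2 := split q l' hqc.2
    have hlt : ((LS Γ q l'.1).filter (fun j => τ < j.1)).card <
        ((LS Γ p l.1).filter (fun j => τ < j.1)).card := by
      apply Finset.card_lt_card
      have move : ∀ j : ℝ × ℝ, τ < j.1 → height j q.1 ≤ q.2 → height j p.1 < p.2 := by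
        intro j h1 h2
        have h4 := height_shift j p.1 q.1 τ
        have h5 : 0 < (j.1 - τ) * (q.1 - p.1) := mul_pos (by linarith) (by linarith)
        linarith
      rw [Finset.ssubset_iff_of_subset]
      · refine ⟨l', ?_, ?_⟩
        · rw [Finset.mem_filter]
          unfold LS
          rw [Finset.mem_filter]
          exact ⟨⟨hl', Or.inl (move l' hqc.2 hlq.le)⟩, hqc.2⟩
        · rw [Finset.mem_filter]
          unfold LS
          rw [Finset.mem_filter]
          rintro ⟨⟨-, h1 | ⟨-, h1⟩⟩, -⟩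
          · linarith
          · exact lt_irrefl _ h1
      · intro j hj
        rw [Finset.mem_filter] at hj ⊢
        obtain ⟨hj, h1⟩ := hj
        refine ⟨?_, h1⟩
        unfold LS at hj ⊢
        rw [Finset.mem_filter] at hj ⊢
        refine ⟨hj.1, Or.inl (move j h1 ?_)⟩
        rcases hj.2 with h2 | ⟨h2, -⟩
        · exact h2.le
        · exact h2.le
    omega

lemma uu_le {Γ : Finset (ℝ × ℝ)} {k : ℕ} {τ : ℝ} {p l m : ℝ × ℝ} (hp : V Γ k p l m) :
    uu Γ τ p ≤ k := by
  classical
  obtain ⟨-, -, -, -, -, hL, -⟩ := hp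
  rw [← hL]
  unfold uu LS
  apply Finset.card_le_card
  intro j hj
  rw [Finset.mem_filter] at hj ⊢
  exact ⟨hj.1, Or.inl hj.2.2⟩

lemma convex_step {Γ : Finset (ℝ × ℝ)} {k : ℕ} {τ : ℝ} (hτ : ∀ j ∈ Γ, j.1 ≠ τ)
    {p l m q l' m' : ℝ × ℝ} (hp : V Γ k p l m) (hq : V Γ k q l' m')
    (hpc : l.1 < τ ∧ τ < m.1) (hqc : l'.1 < τ ∧ τ < m'.1) (hpq : p.1 < q.1) :
    gg Γ τ p < gg Γ τ q := by
  classical
  obtain ⟨hl, hm, -, hlp, hmp, -, hR⟩ := hp
  obtain ⟨hl', hm', -, hlq, hmq, -, hR'⟩ := hq
  by_cases hY : p.2 - τ * p.1 ≤ q.2 - τ * q.1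
  · unfold gg
    apply Finset.card_lt_card
    have move : ∀ j : ℝ × ℝ, j.1 < τ → height j p.1 ≤ p.2 → height j q.1 < q.2 := by
      intro j h1 h2
      have h4 := height_shift j p.1 q.1 τ
      have h5 : (j.1 - τ) * (q.1 - p.1) < 0 :=
        mul_neg_of_neg_of_pos (by linarith) (by linarith)
      linarith
    rw [Finset.ssubset_iff_of_subset]
    · refine ⟨l', ?_, ?_⟩
      · rw [Finset.mem_filter]
        exact ⟨hl', hqc.1, hlq.le⟩
      · rw [Finset.mem_filter]
        rintro ⟨-, h1, h2⟩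
        have := move l' h1 h2
        linarith
    · intro j hj
      rw [Finset.mem_filter] at hj ⊢
      exact ⟨hj.1, hj.2.1, (move j hj.2.1 hj.2.2).le⟩
  · push Not at hY
    have split : ∀ (p m : ℝ × ℝ), τ < m.1 → (RS Γ p m.1).card = gg Γ τ p +
        ((RS Γ p m.1).filter (fun j => τ < j.1)).card := by
      intro p m hτm
      rw [← Finset.card_filter_add_card_filter_not (s := RS Γ p m.1) (fun j => τ < j.1), add_comm]
      congr 1
      unfold gg
      congr 1
      ext j
      unfold RS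
      simp only [Finset.mem_filter, not_lt]
      constructor
      · rintro ⟨⟨h1, h2⟩, h3⟩
        have h4 : j.1 < τ := lt_of_le_of_ne h3 (hτ j h1)
        refine ⟨h1, h4, ?_⟩
        rcases h2 with h2 | ⟨h2, -⟩
        · exact h2.le
        · exact h2.le
      · rintro ⟨h1, h2, h3⟩
        refine ⟨⟨h1, ?_⟩, h2.le⟩
        rcases h3.lt_or_eq with h4 | h4
        · exact Or.inl h4
        · exact Or.inr ⟨h4, by linarith⟩
    have s1 := split p m hpc.2
    have s2 := split q m' hqc.2
    have hlt : ((RS Γ q m'.1).filter (fun j => τ < j.1)).card <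
        ((RS Γ p m.1).filter (fun j => τ < j.1)).card := by
      apply Finset.card_lt_card
      have move : ∀ j : ℝ × ℝ, τ < j.1 → height j q.1 ≤ q.2 → height j p.1 < p.2 := by
        intro j h1 h2
        have h4 := height_shift j p.1 q.1 τ
        have h5 : 0 < (j.1 - τ) * (q.1 - p.1) := mul_pos (by linarith) (by linarith)
        linarith
      rw [Finset.ssubset_iff_of_subset]
      · refine ⟨m', ?_, ?_⟩
        · rw [Finset.mem_filter]
          unfold RS
          rw [Finset.mem_filter]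
          exact ⟨⟨hm', Or.inl (move m' hqc.2 hmq.le)⟩, hqc.2⟩
        · rw [Finset.mem_filter]
          unfold RS
          rw [Finset.mem_filter]
          rintro ⟨⟨-, h1 | ⟨-, h1⟩⟩, -⟩
          · linarith
          · exact lt_irrefl _ h1
      · intro j hj
        rw [Finset.mem_filter] at hj ⊢
        obtain ⟨hj, h1⟩ := hj
        refine ⟨?_, h1⟩
        unfold RS at hj ⊢
        rw [Finset.mem_filter] at hj ⊢
        refine ⟨hj.1, Or.inl (move j h1 ?_)⟩
        rcases hj.2 with h2 | ⟨h2, -⟩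
        · exact h2.le
        · exact h2.le
    omega

lemma gg_le {Γ : Finset (ℝ × ℝ)} {k : ℕ} {τ : ℝ} {p l m : ℝ × ℝ} (hp : V Γ k p l m)
    (hpc : l.1 < τ ∧ τ < m.1) : 1 ≤ gg Γ τ p ∧ gg Γ τ p ≤ k := by
  classical
  obtain ⟨hl, -, -, hlp, -, -, hR⟩ := hp
  constructor
  · unfold gg
    rw [Nat.one_le_iff_ne_zero, Finset.card_ne_zero]
    exact ⟨l, by rw [Finset.mem_filter]; exact ⟨hl, hpc.1, hlp.le⟩⟩
  · rw [← hR]
    unfold gg RS
    apply Finset.card_le_card
    intro j hj
    rw [Finset.mem_filter] at hj ⊢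
    refine ⟨hj.1, ?_⟩
    rcases hj.2.2.lt_or_eq with h4 | h4
    · exact Or.inl h4
    · exact Or.inr ⟨h4, by linarith [hj.2.1, hpc.2]⟩

/-- the vertices whose slopes are separated by `τ` -/
def VT (Γ : Finset (ℝ × ℝ)) (k : ℕ) (τ : ℝ) : Set (ℝ × ℝ) :=
  {p | ∃ l m, V Γ k p l m ∧ ((m.1 < τ ∧ τ < l.1) ∨ (l.1 < τ ∧ τ < m.1))}

lemma VT_card {Γ : Finset (ℝ × ℝ)} {k : ℕ} {τ : ℝ} (hτ : ∀ j ∈ Γ, j.1 ≠ τ) :
    (VT Γ k τ).Finite ∧ (VT Γ k τ).ncard ≤ 2 * k + 1 := by
  classical
  set A : Set (ℝ × ℝ) := {p | ∃ l m, V Γ k p l m ∧ (m.1 < τ ∧ τ < l.1)} with hA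
  set B : Set (ℝ × ℝ) := {p | ∃ l m, V Γ k p l m ∧ (l.1 < τ ∧ τ < m.1)} with hB
  have hAB : VT Γ k τ = A ∪ B := by
    ext p
    constructor
    · rintro ⟨l, m, h1, h2 | h2⟩
      · exact Or.inl ⟨l, m, h1, h2⟩
      · exact Or.inr ⟨l, m, h1, h2⟩
    · rintro (⟨l, m, h1, h2⟩ | ⟨l, m, h1, h2⟩)
      · exact ⟨l, m, h1, Or.inl h2⟩
      · exact ⟨l, m, h1, Or.inr h2⟩
  have injA : Set.InjOn (uu Γ τ) A := by
    rintro p ⟨l, m, h1, h2⟩ q ⟨l', m', h3, h4⟩ he
    rcases lt_trichotomy p.1 q.1 with h | h | h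
    · exact absurd he (concave_step hτ h1 h3 h2 h4 h).ne
    · exact V_inj h1 h3 h
    · exact absurd he (concave_step hτ h3 h1 h4 h2 h).ne'
  have injB : Set.InjOn (gg Γ τ) B := by
    rintro p ⟨l, m, h1, h2⟩ q ⟨l', m', h3, h4⟩ he
    rcases lt_trichotomy p.1 q.1 with h | h | h
    · exact absurd he (convex_step hτ h1 h3 h2 h4 h).ne
    · exact V_inj h1 h3 h
    · exact absurd he (convex_step hτ h3 h1 h4 h2 h).ne'
  have mA : Set.MapsTo (uu Γ τ) A (Finset.range (k + 1) : Finset ℕ) := by
    rintro p ⟨l, m, h1, -⟩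
    have := uu_le (τ := τ) h1
    simp only [Finset.coe_range, Set.mem_Iio]
    omega
  have mB : Set.MapsTo (gg Γ τ) B (Finset.Icc 1 k : Finset ℕ) := by
    rintro p ⟨l, m, h1, h2⟩
    have := gg_le h1 h2
    simp only [Finset.coe_Icc, Set.mem_Icc]
    omega
  have cA : A.ncard ≤ k + 1 := by
    have := Set.ncard_le_ncard_of_injOn (uu Γ τ) mA injA (Finset.finite_toSet _)
    simpa using this
  have cB : B.ncard ≤ k := by
    have := Set.ncard_le_ncard_of_injOn (gg Γ τ) mB injB (Finset.finite_toSet _)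
    rw [Set.ncard_coe_finset, Nat.card_Icc] at this
    simpa using this
  have fA : A.Finite := Set.Finite.of_injOn mA injA (Finset.finite_toSet _)
  have fB : B.Finite := Set.Finite.of_injOn mB injB (Finset.finite_toSet _)
  rw [hAB]
  refine ⟨fA.union fB, (Set.ncard_union_le A B).trans (by omega)⟩

/-- thresholds separating the elements of a finite set of reals -/
lemma thresholds (S : Finset ℝ) : ∃ T : Finset ℝ, T.card ≤ S.card - 1 ∧
    (∀ τ ∈ T, τ ∉ S ∧ ∃ b ∈ S, τ < b) ∧
    ∀ a ∈ S, ∀ b ∈ S, a < b → ∃ τ ∈ T, a < τ ∧ τ < b := by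
  classical
  refine Finset.induction_on_max S ?_ ?_
  · exact ⟨∅, by simp, by simp, by simp⟩
  · intro a S hmax ih
    obtain ⟨T, h1, h2, h3⟩ := ih
    have ha : a ∉ S := fun h => lt_irrefl _ (hmax a h)
    rcases S.eq_empty_or_nonempty with rfl | hne
    · refine ⟨∅, by simp, by simp, ?_⟩
      intro x hx y hy hxy
      rw [Finset.mem_insert] at hx hy
      simp only [Finset.notMem_empty, or_false] at hx hy
      subst hx; subst hy
      exact absurd hxy (lt_irrefl _)
    · have hM := hmax _ (S.max'_mem hne)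
      set M := S.max' hne with hMdef
      refine ⟨insert ((M + a) / 2) T, ?_, ?_, ?_⟩
      · rw [Finset.card_insert_of_notMem ha]
        have := Finset.card_insert_le ((M + a) / 2) T
        have := Finset.card_pos.mpr hne
        omega
      · intro τ hτ
        rw [Finset.mem_insert] at hτ
        rw [Finset.mem_insert, not_or]
        rcases hτ with rfl | hτ
        · refine ⟨⟨by intro h; linarith, ?_⟩, a, Finset.mem_insert_self _ _, by linarith⟩
          intro h
          have := S.le_max' _ h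
          linarith
        · obtain ⟨h4, b, hb, h5⟩ := h2 τ hτ
          have := hmax b hb
          exact ⟨⟨by intro h; linarith, h4⟩, b, Finset.mem_insert_of_mem hb, h5⟩
      · intro x hx y hy hxy
        rw [Finset.mem_insert] at hx hy
        rcases hx with rfl | hx
        · rcases hy with rfl | hy
          · exact absurd hxy (lt_irrefl _)
          · exact absurd hxy (not_lt.mpr (hmax y hy).le)
        · rcases hy with rfl | hy
          · refine ⟨(M + y) / 2, Finset.mem_insert_self _ _, ?_, by linarith⟩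
            have := S.le_max' _ hx
            linarith
          · obtain ⟨τ, h4, h5⟩ := h3 x hx y hy hxy
            exact ⟨τ, Finset.mem_insert_of_mem h4, h5⟩

/-- the vertices of the `k`-level in the combinatorial form -/
def VV (Γ : Finset (ℝ × ℝ)) (k : ℕ) : Set (ℝ × ℝ) := {p | ∃ l m, V Γ k p l m}

theorem VV_card (Γ : Finset (ℝ × ℝ)) (k : ℕ) :
    (VV Γ k).Finite ∧ (VV Γ k).ncard ≤ ((Γ.image Prod.fst).card - 1) * (2 * k + 1) := by
  classical
  obtain ⟨T, h1, h2, h3⟩ := thresholds (Γ.image Prod.fst)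
  have hτ : ∀ τ ∈ T, ∀ j ∈ Γ, j.1 ≠ τ := by
    intro τ hτ j hj h
    exact (h2 τ hτ).1 (h ▸ Finset.mem_image_of_mem _ hj)
  have hsub : VV Γ k ⊆ ⋃ τ ∈ T, VT Γ k τ := by
    rintro p ⟨l, m, h⟩
    have hne := slope_ne h.2.2.1 h.2.2.2.1 h.2.2.2.2.1
    have hl : l.1 ∈ Γ.image Prod.fst := Finset.mem_image_of_mem _ h.1
    have hm : m.1 ∈ Γ.image Prod.fst := Finset.mem_image_of_mem _ h.2.1
    rw [Set.mem_iUnion₂]
    rcases lt_or_gt_of_ne hne with h4 | h4
    · obtain ⟨τ, h5, h6⟩ := h3 _ hl _ hm h4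
      exact ⟨τ, h5, l, m, h, Or.inr h6⟩
    · obtain ⟨τ, h5, h6⟩ := h3 _ hm _ hl h4
      exact ⟨τ, h5, l, m, h, Or.inl h6⟩
  have hfin : (⋃ τ ∈ T, VT Γ k τ).Finite := by
    apply Set.Finite.biUnion (Finset.finite_toSet T)
    intro τ h4
    exact (VT_card (hτ τ h4)).1
  refine ⟨hfin.subset hsub, ?_⟩
  calc (VV Γ k).ncard ≤ (⋃ τ ∈ T, VT Γ k τ).ncard := Set.ncard_le_ncard hsub hfin
    _ ≤ ∑ τ ∈ T, (VT Γ k τ).ncard := Finset.set_ncard_biUnion_le T _
    _ ≤ ∑ τ ∈ T, (2 * k + 1) := Finset.sum_le_sum (fun τ h4 => (VT_card (hτ τ h4)).2)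
    _ = T.card * (2 * k + 1) := by simp
    _ ≤ _ := Nat.mul_le_mul_right _ h1

/-- reflection in the horizontal axis -/
def refl (l : ℝ × ℝ) : ℝ × ℝ := (-l.1, -l.2)

lemma refl_inj : Function.Injective refl := by
  intro l m h
  unfold refl at h
  rw [Prod.mk.injEq] at h
  exact Prod.ext (neg_injective h.1) (neg_injective h.2)

lemma height_refl (l : ℝ × ℝ) (x : ℝ) : height (refl l) x = - height l x := by
  unfold height refl; ring

lemma V_refl {Γ : Finset (ℝ × ℝ)} {k : ℕ} {p l m : ℝ × ℝ} (h : V Γ k p l m) :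
    V (Γ.image refl) (Γ.card - 1 - k) (p.1, -p.2) (refl l) (refl m) := by
  classical
  obtain ⟨hl, hm, hlm, hlp, hmp, hL, hR⟩ := h
  refine ⟨Finset.mem_image_of_mem _ hl, Finset.mem_image_of_mem _ hm,
    fun h => hlm (refl_inj h), ?_, ?_, ?_, ?_⟩
  · show height (refl l) p.1 = -p.2
    rw [height_refl, hlp]
  · show height (refl m) p.1 = -p.2
    rw [height_refl, hmp]
  · have e : LS (Γ.image refl) (p.1, -p.2) (refl l).1 =
        ((Γ \ LS Γ p l.1).erase l).image refl := by
      ext j'
      unfold LS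
      simp only [Finset.mem_filter, Finset.mem_image, Finset.mem_erase, Finset.mem_sdiff]
      constructor
      · rintro ⟨⟨j, hj, rfl⟩, h1⟩
        rw [height_refl] at h1
        refine ⟨j, ⟨?_, hj, ?_⟩, rfl⟩
        · rintro rfl
          rcases h1 with h1 | ⟨-, h1⟩
          · linarith
          · exact lt_irrefl _ h1
        · rintro ⟨-, h2⟩
          have e1 : (refl l).1 = -l.1 := rfl
          have e2 : (refl j).1 = -j.1 := rfl
          rw [e1, e2] at h1
          rcases h1 with h1 | ⟨h1, h1'⟩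
          · rcases h2 with h2 | ⟨h2, -⟩
            · linarith
            · linarith
          · rcases h2 with h2 | ⟨-, h2⟩
            · linarith
            · linarith
      · rintro ⟨j, ⟨hjl, hj, h2⟩, rfl⟩
        refine ⟨⟨j, hj, rfl⟩, ?_⟩
        rw [height_refl]
        have e1 : (refl l).1 = -l.1 := rfl
        have e2 : (refl j).1 = -j.1 := rfl
        rw [e1, e2]
        rcases lt_trichotomy (height j p.1) p.2 with h3 | h3 | h3
        · exact absurd ⟨hj, Or.inl h3⟩ h2
        · right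
          refine ⟨by linarith, ?_⟩
          have h4 : ¬ l.1 < j.1 := fun h => h2 ⟨hj, Or.inr ⟨h3, h⟩⟩
          have h5 := slope_ne hjl h3 hlp
          have h6 : j.1 < l.1 := lt_of_le_of_ne (not_lt.mp h4) h5
          linarith
        · left; linarith
    rw [e, Finset.card_image_of_injective _ refl_inj, Finset.card_erase_of_mem, Finset.card_sdiff_of_subset,
      hL]
    · omega
    · exact Finset.filter_subset _ _
    · rw [Finset.mem_sdiff]
      refine ⟨hl, ?_⟩
      unfold LS
      rw [Finset.mem_filter]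
      rintro ⟨-, h1 | ⟨-, h1⟩⟩
      · linarith
      · exact lt_irrefl _ h1
  · have e : RS (Γ.image refl) (p.1, -p.2) (refl m).1 =
        ((Γ \ RS Γ p m.1).erase m).image refl := by
      ext j'
      unfold RS
      simp only [Finset.mem_filter, Finset.mem_image, Finset.mem_erase, Finset.mem_sdiff]
      constructor
      · rintro ⟨⟨j, hj, rfl⟩, h1⟩
        rw [height_refl] at h1
        refine ⟨j, ⟨?_, hj, ?_⟩, rfl⟩
        · rintro rfl
          rcases h1 with h1 | ⟨-, h1⟩
          · linarith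
          · exact lt_irrefl _ h1
        · rintro ⟨-, h2⟩
          have e1 : (refl m).1 = -m.1 := rfl
          have e2 : (refl j).1 = -j.1 := rfl
          rw [e1, e2] at h1
          rcases h1 with h1 | ⟨h1, h1'⟩
          · rcases h2 with h2 | ⟨h2, -⟩
            · linarith
            · linarith
          · rcases h2 with h2 | ⟨-, h2⟩
            · linarith
            · linarith
      · rintro ⟨j, ⟨hjl, hj, h2⟩, rfl⟩
        refine ⟨⟨j, hj, rfl⟩, ?_⟩
        rw [height_refl]
        have e1 : (refl m).1 = -m.1 := rfl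
        have e2 : (refl j).1 = -j.1 := rfl
        rw [e1, e2]
        rcases lt_trichotomy (height j p.1) p.2 with h3 | h3 | h3
        · exact absurd ⟨hj, Or.inl h3⟩ h2
        · right
          refine ⟨by linarith, ?_⟩
          have h4 : ¬ j.1 < m.1 := fun h => h2 ⟨hj, Or.inr ⟨h3, h⟩⟩
          have h5 := slope_ne hjl h3 hmp
          have h6 : m.1 < j.1 := lt_of_le_of_ne (not_lt.mp h4) (Ne.symm h5)
          linarith
        · left; linarith
    rw [e, Finset.card_image_of_injective _ refl_inj, Finset.card_erase_of_mem, Finset.card_sdiff_of_subset,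
      hR]
    · omega
    · exact Finset.filter_subset _ _
    · rw [Finset.mem_sdiff]
      refine ⟨hm, ?_⟩
      unfold RS
      rw [Finset.mem_filter]
      rintro ⟨-, h1 | ⟨-, h1⟩⟩
      · linarith
      · exact lt_irrefl _ h1

/-- **Upper bound.** The `k`-level of an arrangement of `n` lines with `D` distinct slopes has at
most `(D - 1) (2 min (k, n - 1 - k) + 1)` vertices. -/
theorem upper (Γ : Finset (ℝ × ℝ)) (k : ℕ) : complexity Γ k ≤
    ((Γ.image Prod.fst).card - 1) * (2 * min k (Γ.card - 1 - k) + 1) := by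
  classical
  have h1 : {p | IsVertex Γ k p} ⊆ VV Γ k := fun p h => V_of_isVertex h
  have h2 := VV_card Γ k
  have h3 : complexity Γ k ≤ (VV Γ k).ncard := Set.ncard_le_ncard h1 h2.1
  have h4 := VV_card (Γ.image refl) (Γ.card - 1 - k)
  have h5 : (VV Γ k).ncard ≤ (VV (Γ.image refl) (Γ.card - 1 - k)).ncard := by
    apply Set.ncard_le_ncard_of_injOn (fun p => (p.1, -p.2)) _ _ h4.1
    · rintro p ⟨l, m, h⟩
      exact ⟨refl l, refl m, V_refl h⟩
    · rintro p - q - h
      rw [Prod.mk.injEq] at h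
      exact Prod.ext h.1 (neg_injective h.2)
  have h6 : ((Γ.image refl).image Prod.fst).card = (Γ.image Prod.fst).card := by
    rw [Finset.image_image]
    have : (Prod.fst ∘ refl) = (fun x : ℝ => -x) ∘ (Prod.fst : ℝ × ℝ → ℝ) := by
      funext l; rfl
    rw [this, ← Finset.image_image]
    exact Finset.card_image_of_injective _ neg_injective
  rw [h6] at h4
  rcases Nat.le_total k (Γ.card - 1 - k) with h | h
  · rw [min_eq_left h]; exact h3.trans h2.2
  · rw [min_eq_right h]; exact h3.trans (h5.trans h4.2)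

end Pool.Agent.Y375.FD
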