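import Pool.Agent.KLev.Levels

/-!
# Composition of arrangements with control of the number of distinct slopes
-/

namespace Pool.Agent.Y375.FD

open KLev Finset Filter Topology

/-- a certificate with rational slopes can be rescaled to natural slopes by an affine map -/
theorem natSlopes' {ι R : Type} [Fintype ι] {κ P : ℕ} (C : Cert ι R κ P) (h : RatSlopes C.s) :
    ∃ (C' : Cert ι R κ P) (σ : ι → ℕ) (Rz d m : ℕ), (∀ i, C'.s i = σ i) ∧ (∀ i, σ i ≤ Rz) ∧
      1 ≤ Rz ∧ ∀ i, (σ i : ℝ) = d * C.s i + m := by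
  classical
  choose q hq using h
  set d : ℕ := ∏ i, (q i).den with hd
  have hd0 : 0 < d := Finset.prod_pos (fun i _ => (q i).den_pos)
  have hz : ∀ i, ∃ z : ℤ, (z : ℚ) = d * q i := by
    intro i
    refine ⟨(∏ j ∈ Finset.univ.erase i, ((q j).den : ℤ)) * (q i).num, ?_⟩
    have h1 : (d : ℚ) = (q i).den * ∏ j ∈ Finset.univ.erase i, ((q j).den : ℚ) := by
      rw [hd, Nat.cast_prod]
      exact (Finset.mul_prod_erase _ (fun j => ((q j).den : ℚ)) (Finset.mem_univ i)).symm
    have h2 : (q i) * (q i).den = (q i).num := Rat.mul_den_eq_num (q i)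
    push_cast
    rw [h1]
    linear_combination (-(∏ j ∈ Finset.univ.erase i, ((q j).den : ℚ))) * h2
  choose z hz using hz
  set m : ℕ := ∑ i, (z i).natAbs with hm
  have hzm : ∀ i, (z i).natAbs ≤ m := fun i =>
    Finset.single_le_sum (f := fun i => (z i).natAbs) (fun _ _ => Nat.zero_le _)
      (Finset.mem_univ i)
  have hσ : ∀ i, (((z i + m).toNat : ℕ) : ℤ) = z i + m := by
    intro i
    apply Int.toNat_of_nonneg
    have := hzm i
    omega
  have hs : ∀ i, (d : ℝ) * C.s i + m = (((z i + m).toNat : ℕ) : ℝ) := by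
    intro i
    have h1 : (((z i + m).toNat : ℕ) : ℝ) = (((z i + m).toNat : ℤ) : ℝ) := by push_cast; rfl
    rw [h1, hσ i]
    have h2 : (z i : ℝ) = ((z i : ℚ) : ℝ) := by push_cast; rfl
    push_cast
    rw [h2, hz i, hq i]
    push_cast; rfl
  have hdR : (0:ℝ) < d := by exact_mod_cast hd0
  have key : ∀ i x t y, (d * C.s i + m) * (x / d) + t - (y + m * (x / d)) = C.s i * x + t - y := by
    intro i x t y
    field_simp
    ring
  have hlt : ∀ i x t y, ((d * C.s i + m) * (x / d) + t < (y + m * (x / d)) ↔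
      C.s i * x + t < y) := by
    intro i x t y
    rw [← sub_neg, key, sub_neg]
  refine ⟨{ s := fun i => d * C.s i + m
            t := C.t
            x := fun r b => C.x r b / d
            y := fun r b => C.y r b + m * (C.x r b / d)
            l := C.l
            slot := C.slot
            hlt := fun r => div_lt_div_of_pos_right (C.hlt r) hdR
            hdisj := fun r r' h => by
              rcases C.hdisj r r' h with h | h
              · exact Or.inl (div_lt_div_of_pos_right h hdR)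
              · exact Or.inr (div_lt_div_of_pos_right h hdR)
            hne := fun r b i h => by
              apply C.hne r b i
              have := key i (C.x r b) (C.t i) (C.y r b)
              linarith
            hcard := fun r b => by
              refine Eq.trans ?_ (C.hcard r b)
              apply Finset.sum_congr rfl
              intro i _
              simp only [hlt]
            hl0 := fun r => (hlt _ _ _ _).mpr (C.hl0 r)
            hl1 := fun r => by
              have := key (C.l r) (C.x r true) (C.t (C.l r)) (C.y r true)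
              have := C.hl1 r
              linarith
            hslot := C.hslot }, fun i => (z i + m).toNat, m + m + 1, d, m, hs, ?_, by omega,
            fun i => (hs i).symm⟩
  intro i
  have := hzm i
  have := hσ i
  show (z i + m).toNat ≤ _
  omega

/-- `N` lines with at most `D` distinct slopes, all rational, `E` changes of the set of the `κ`
lowest lines, at most `P` per line -/
def HasD (N E P D : ℕ) : Prop :=
  ∃ (ι R : Type) (_ : Fintype ι) (_ : Fintype R) (κ : ℕ) (C : Cert ι R κ P) (T : Finset ℝ),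
    RatSlopes C.s ∧ (∀ i, C.s i ∈ T) ∧ T.card ≤ D ∧ Fintype.card ι = N ∧ Fintype.card R = E ∧
      1 ≤ κ ∧ κ ≤ N

/-- relative slope of the pool lines as a function of the natural slope -/
noncomputable def psiR (φ δ lam : ℝ) (x : ℝ) : ℝ := (φ - δ * x / (1 + lam * x)) / (1 + φ)

theorem slp_mem {A R₁ G R₂ : Type} [Fintype A] [Fintype G] [Fintype R₁] {k₁ P₁ k₂ P₂ : ℕ}
    (S₁ : Ev A R₁ k₁ P₁) (S₂ : Cert G R₂ k₂ P₂) (σ : G → ℕ) (Rz Nx V : ℕ)
    (p : Par S₁ S₂ Rz Nx V) (T : Finset ℝ) (hT : ∀ α, (σ α : ℝ) ∈ T) :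
    ∃ T' : Finset ℝ, T'.card ≤ Fintype.card A + Fintype.card R₁ * T.card ∧
      ∀ q, slp S₁ S₂ σ Rz Nx V p q ∈ T' := by
  classical
  refine ⟨(Finset.univ.image S₁.s) ∪ ((Finset.univ : Finset R₁) ×ˢ T).image
    (fun z => S₁.s (S₁.a z.1) - psiR p.φ p.δ p.lam z.2 * S₁.D z.1), ?_, ?_⟩
  · refine (Finset.card_union_le _ _).trans (Nat.add_le_add ?_ ?_)
    · exact Finset.card_image_le.trans (by simp)
    · exact Finset.card_image_le.trans (by simp [Finset.card_product])
  · rintro ⟨c, ⟨i, α, β⟩ | ⟨q, α, β⟩ | ⟨h, α, β⟩⟩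
    · exact Finset.mem_union_left _ (Finset.mem_image_of_mem _ (Finset.mem_univ c))
    · exact Finset.mem_union_left _ (Finset.mem_image_of_mem _ (Finset.mem_univ c))
    · simp only [slp]
      rcases he : S₁.evt c h with _ | e
      · exact Finset.mem_union_left _ (Finset.mem_image_of_mem _ (Finset.mem_univ c))
      · apply Finset.mem_union_right
        refine Finset.mem_image.mpr ⟨(e, (σ α : ℝ)), ?_, ?_⟩
        · exact Finset.mem_product.mpr ⟨Finset.mem_univ _, hT α⟩
        · have := (S₁.evt_spec he).1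
          simp only [this, psiR, psi]

/-- composition: the number of slopes is controlled by the inner arrangement and by the number of
events of the outer arrangement -/
theorem HasD.comp {N₁ E₁ P₁ g E₂ P₂ D₂ : ℕ} (h₁ : Has N₁ E₁ P₁) (h₂ : HasD g E₂ P₂ D₂)
    (hE₁ : 1 ≤ E₁) (hE₂ : 1 ≤ E₂) :
    ∃ Rz, 1 ≤ Rz ∧ ∀ Nx V₁ : ℕ, 1 ≤ Nx → 1 ≤ V₁ →
      HasD (N₁ * (g * (Rz * Nx + V₁) * (2 * Nx + 3 * P₁))) (E₁ * (Nx * V₁ * E₂)) (Nx * P₂)
        (N₁ + E₁ * D₂) := by
  classical
  obtain ⟨A, R₁, _, _, κ₁, C₁, hr, hA, hR₁, hκ₁, hκ₁'⟩ := h₁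
  obtain ⟨G, R₂, _, _, κ₂, C₂', T, hr₂, hT, hTc, hG, hR₂, hκ₂, hκ₂'⟩ := h₂
  obtain ⟨C₂, σ, Rz, d, m, hσ, hRz, hRz1, haff⟩ := natSlopes' C₂' hr₂
  obtain ⟨k, rfl⟩ : ∃ k, κ₁ = k + 1 := ⟨κ₁ - 1, by omega⟩
  obtain ⟨S, hS, -⟩ := regularize C₁
  refine ⟨Rz, hRz1, fun Nx V₁ hNx hV => ?_⟩
  obtain ⟨p, hp⟩ := exists_par S C₂ Rz Nx (Rz * Nx + V₁)
  obtain ⟨K, -, hK⟩ := Finset.exists_subset_card_eq (s := (Finset.univ : Finset G)) (n := κ₂)
    (by rw [Finset.card_univ]; omega)
  obtain ⟨C, hC⟩ := compose_cert S C₂ σ Rz Nx V₁ p K hK hσ hRz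
  have hTσ : ∀ α, (σ α : ℝ) ∈ T.image (fun x => (d:ℝ) * x + m) := by
    intro α
    rw [haff α]
    exact Finset.mem_image_of_mem _ (hT α)
  obtain ⟨T', hT'c, hT'⟩ := slp_mem S C₂ σ Rz Nx (Rz * Nx + V₁) p _ hTσ
  have hcard : Fintype.card (Idx A G Nx P₁ (Rz * Nx + V₁)) =
      N₁ * (g * (Rz * Nx + V₁) * (2 * Nx + 3 * P₁)) := by
    simp only [Fintype.card_prod, Fintype.card_sum, Fintype.card_fin, hA, hG]
    ring
  have : Nonempty R₁ := Fintype.card_pos_iff.mp (by omega)
  have : Nonempty R₂ := Fintype.card_pos_iff.mp (by omega)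
  have : Nonempty (Fin Nx) := ⟨⟨0, by omega⟩⟩
  have : Nonempty (Fin V₁) := ⟨⟨0, by omega⟩⟩
  have hle := cert_le C
  refine ⟨_, _, inferInstance, inferInstance, _, C, T', ?_, ?_, ?_, hcard, ?_, ?_, ?_⟩
  · intro q
    obtain ⟨u, hu⟩ := slp_rat S C₂ σ Rz Nx (Rz * Nx + V₁) p hp (by rw [hS]; exact hr) q
    exact ⟨u, by rw [hC, hu]⟩
  · intro q
    rw [hC]
    exact hT' q
  · refine hT'c.trans ?_
    rw [hA, hR₁]
    apply Nat.add_le_add_left
    apply Nat.mul_le_mul_left
    exact Finset.card_image_le.trans hTc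
  · simp only [Fintype.card_prod, Fintype.card_fin, hR₁, hR₂]
  · rw [hG]
    have : 1 ≤ g * (Rz * Nx + V₁) * (2 * Nx + 2 * P₁) := by
      have : 1 ≤ g := by omega
      apply Nat.one_le_iff_ne_zero.mpr
      positivity
    omega
  · rw [hcard] at hle
    exact hle

end Pool.Agent.Y375.FD
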