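import Pool.Agent.Y375.FD.Comp

/-!
# Lower bound for the complexity of a level in terms of the number of directions
-/

namespace Pool.Agent.Y375.FD

open KLev KLev.Levels Finset Filter Topology

lemma hasD_base : HasD 24 51 4 24 := by
  classical
  refine ⟨Fin 24, Fin 51, inferInstance, inferInstance, 11 + 1, baseCert,
    Finset.univ.image baseCert.s, baseCert_rat, fun i => Finset.mem_image_of_mem _ (Finset.mem_univ i),
    ?_, by simp, by simp, by omega, by omega⟩
  exact Finset.card_image_le.trans (by simp)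

/-- two families of `m` parallel lines -/
lemma hasD_grid (m : ℕ) (hm : 1 ≤ m) : HasD (2 * m) m 1 2 := by
  classical
  have h0 : ∀ (r j : Fin m), ((j:ℕ) < (r:ℕ) → (j:ℝ) + 1 ≤ r) := by
    intro r j h
    exact_mod_cast h
  have eqv : ∀ (r j : Fin m), ((j:ℝ) < r ↔ j < r) := by
    intro r j
    rw [Nat.cast_lt]
    exact Fin.val_fin_lt
  refine ⟨Bool × Fin m, Fin m, inferInstance, inferInstance, m,
    { s := fun i => if i.1 then 1 else -1
      t := fun i => if i.1 then -(i.2 : ℝ) else (i.2 : ℝ)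
      x := fun r b => if b then (r:ℝ) + 1 / 4 else (r:ℝ) - 1 / 4
      y := fun _ _ => 0
      l := fun r => (true, r)
      slot := fun _ => 0
      hlt := fun r => by simp only [Bool.false_eq_true, if_false, if_true]; linarith
      hdisj := ?_, hne := ?_, hcard := ?_, hl0 := ?_, hl1 := ?_
      hslot := fun r r' h _ => (Prod.mk.inj h).2 }, {1, -1}, ?_, ?_, ?_, ?_, ?_, hm, by omega⟩
  · intro r r' h
    simp only [Bool.false_eq_true, if_false, if_true]
    rcases lt_or_gt_of_ne h with h | h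
    · left
      have := h0 r' r h
      linarith
    · right
      have := h0 r r' h
      linarith
  · rintro r b ⟨c, j⟩
    rcases lt_trichotomy j r with h | h | h
    · have := h0 r j h
      cases b <;> cases c <;> simp only [Bool.false_eq_true, if_false, if_true] <;>
        intro h' <;> linarith
    · subst h
      cases b <;> cases c <;> simp only [Bool.false_eq_true, if_false, if_true] <;>
        intro h' <;> linarith
    · have := h0 j r h
      cases b <;> cases c <;> simp only [Bool.false_eq_true, if_false, if_true] <;>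
        intro h' <;> linarith
  · intro r b
    rw [Fintype.sum_prod_type]
    simp only [Fintype.sum_bool, Bool.false_eq_true, if_false, if_true]
    have e1 : ∀ j : Fin m, ((1:ℝ) * (if b then (r:ℝ) + 1 / 4 else (r:ℝ) - 1 / 4) + -(j:ℝ) < 0 ↔
        ¬ ((-1:ℝ) * (if b then (r:ℝ) + 1 / 4 else (r:ℝ) - 1 / 4) + (j:ℝ) < 0)) := by
      intro j
      rcases lt_trichotomy j r with h | h | h
      · have := h0 r j h
        cases b <;> simp only [Bool.false_eq_true, if_false, if_true] <;>
          constructor <;> intro h' <;> linarith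
      · subst h
        cases b <;> simp only [Bool.false_eq_true, if_false, if_true] <;>
          constructor <;> intro h' <;> linarith
      · have := h0 j r h
        cases b <;> simp only [Bool.false_eq_true, if_false, if_true] <;>
          constructor <;> intro h' <;> linarith
    simp only [e1]
    rw [← Finset.sum_add_distrib]
    calc _ = ∑ j : Fin m, 1 := by
          apply Finset.sum_congr rfl
          intro j _
          split_ifs <;> simp_all
      _ = m := by simp
  · intro r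
    simp
  · intro r
    simp
  · rintro ⟨c, j⟩
    cases c
    · exact ⟨-1, by simp⟩
    · exact ⟨1, by simp⟩
  · rintro ⟨c, j⟩
    cases c <;> simp
  · exact Finset.card_le_two
  · simp [Fintype.card_prod]
  · simp

/-- far away lines of a given slope can be added above and below -/
theorem padS {ι R : Type} [Fintype ι] [Finite R] {k P : ℕ} (C : Cert ι R k P) (s₀ : ℝ) (p q : ℕ) :
    ∃ C' : Cert (ι ⊕ (Fin p ⊕ Fin q)) R (k + q) P, C'.s = Sum.elim C.s (fun _ => s₀) := by
  classical
  cases nonempty_fintype R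
  obtain ⟨T, hT⟩ : ∃ T : ℝ, ∀ r b, |C.y r b - s₀ * C.x r b| < T := by
    refine ⟨∑ r, ∑ b, |C.y r b - s₀ * C.x r b| + 1, ?_⟩
    intro r b
    have h1 : |C.y r b - s₀ * C.x r b| ≤ ∑ b', |C.y r b' - s₀ * C.x r b'| :=
      Finset.single_le_sum (f := fun b' => |C.y r b' - s₀ * C.x r b'|) (fun _ _ => abs_nonneg _)
        (Finset.mem_univ b)
    have h2 : ∑ b', |C.y r b' - s₀ * C.x r b'| ≤ ∑ r', ∑ b', |C.y r' b' - s₀ * C.x r' b'| :=
      Finset.single_le_sum (f := fun r' => ∑ b', |C.y r' b' - s₀ * C.x r' b'|)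
        (fun _ _ => Finset.sum_nonneg (fun _ _ => abs_nonneg _)) (Finset.mem_univ r)
    linarith
  refine ⟨{
    s := Sum.elim C.s (fun _ => s₀)
    t := Sum.elim C.t (Sum.elim (fun _ => T) (fun _ => -T))
    x := C.x, y := C.y, l := fun r => Sum.inl (C.l r), slot := C.slot
    hlt := C.hlt, hdisj := C.hdisj, hne := ?_, hcard := ?_
    hl0 := fun r => by simpa using C.hl0 r, hl1 := fun r => by simpa using C.hl1 r
    hslot := ?_ }, rfl⟩
  · rintro r b (i | i | i)
    · simpa using C.hne r b i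
    · have := abs_lt.mp (hT r b)
      simp only [Sum.elim_inr, Sum.elim_inl]
      intro h; linarith [this.2]
    · have := abs_lt.mp (hT r b)
      simp only [Sum.elim_inr]
      intro h; linarith [this.1]
  · intro r b
    have h := abs_lt.mp (hT r b)
    rw [Fintype.sum_sum_type, Fintype.sum_sum_type]
    have e1 : ¬ (s₀ * C.x r b + T < C.y r b) := by linarith [h.2]
    have e2 : s₀ * C.x r b + -T < C.y r b := by linarith [h.1]
    simp only [Sum.elim_inl, Sum.elim_inr, e1, e2, if_true, if_false]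
    refine congrArg₂ (· + ·) (Eq.trans (Finset.sum_congr rfl fun i _ => ?_) (C.hcard r b))
      (by simp)
    congr
  · intro r r' h1 h2
    exact C.hslot r r' (Sum.inl.inj h1) h2

/-- the events of an arrangement of distinct lines are vertices of the level -/
theorem complexity_ge {ι R : Type} [Fintype ι] [Fintype R] {k P : ℕ} (S : Ev ι R k P)
    (g : ι → ℝ × ℝ) (hg : g = fun i => (S.s i, S.t i)) (hginj : Function.Injective g)
    (Γ : Finset (ℝ × ℝ)) (hΓ' : ∀ l, l ∈ Γ ↔ ∃ i, g i = l) :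
    Fintype.card R ≤ complexity Γ k := by
  classical
  have hΓ : Γ = Finset.univ.image g := by
    ext l; rw [hΓ' l]; simp
  have hmem : ∀ i, g i ∈ Γ := fun i => by simp [hΓ]
  have hlev : ∀ p : ℝ × ℝ, level Γ p =
      ((Finset.univ : Finset ι).filter (fun i => S.s i * p.1 + S.t i < p.2)).card := by
    intro p
    unfold level
    rw [hΓ, Finset.filter_image, Finset.card_image_of_injective _ hginj, hg]
    rfl
  have hcnt : ∀ r, ((Finset.univ : Finset ι).filter (fun i => S.s i * S.X r + S.t i <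
      S.s (S.a r) * S.X r + S.t (S.a r))).card = k := by
    intro r; rw [Finset.card_filter]; convert S.hcard r
  have hcont : ∀ i, Continuous (fun x : ℝ => S.s i * x + S.t i) := by
    intro i; fun_prop
  -- near the event the other lines keep their side
  have hnear : ∀ r, ∀ᶠ x in 𝓝 (S.X r), ∀ c, c ≠ S.a r → c ≠ S.b r →
      (S.s c * x + S.t c < S.s (S.a r) * x + S.t (S.a r) ↔
        S.s c * S.X r + S.t c < S.s (S.a r) * S.X r + S.t (S.a r)) ∧
      (S.s c * x + S.t c < S.s (S.b r) * x + S.t (S.b r) ↔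
        S.s c * S.X r + S.t c < S.s (S.a r) * S.X r + S.t (S.a r)) := by
    intro r
    rw [eventually_all]; intro c
    by_cases hca : c = S.a r
    · exact Filter.Eventually.of_forall (fun _ h => absurd hca h)
    by_cases hcb : c = S.b r
    · exact Filter.Eventually.of_forall (fun _ _ h => absurd hcb h)
    have hne := S.hne r c hca hcb
    have hne2 : S.s c * S.X r + S.t c ≠ S.s (S.b r) * S.X r + S.t (S.b r) := by
      rw [← S.tie r]; exact hne
    rcases lt_or_gt_of_ne hne with h | h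
    · have h' : S.s c * S.X r + S.t c < S.s (S.b r) * S.X r + S.t (S.b r) := by
        rw [← S.tie r]; exact h
      filter_upwards [(hcont c).continuousAt.eventually_lt (hcont (S.a r)).continuousAt h,
        (hcont c).continuousAt.eventually_lt (hcont (S.b r)).continuousAt h'] with x h1 h2 _ _
      exact ⟨⟨fun _ => h, fun _ => h1⟩, ⟨fun _ => h, fun _ => h2⟩⟩
    · have h' : S.s (S.b r) * S.X r + S.t (S.b r) < S.s c * S.X r + S.t c := by
        rw [← S.tie r]; exact h
      filter_upwards [(hcont (S.a r)).continuousAt.eventually_lt (hcont c).continuousAt h,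
        (hcont (S.b r)).continuousAt.eventually_lt (hcont c).continuousAt h'] with x h1 h2 _ _
      exact ⟨⟨fun h3 => absurd h3 (not_lt.mpr h1.le), fun h3 => absurd h3 (not_lt.mpr h.le)⟩,
        ⟨fun h3 => absurd h3 (not_lt.mpr h2.le), fun h3 => absurd h3 (not_lt.mpr h.le)⟩⟩
  have hver : ∀ r, IsVertex Γ k (S.X r, S.s (S.a r) * S.X r + S.t (S.a r)) := by
    intro r
    obtain ⟨δ, hδ, hball⟩ := Metric.eventually_nhds_iff.mp (hnear r)
    have ha : g (S.a r) = (S.s (S.a r), S.t (S.a r)) := by rw [hg]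
    have hb : g (S.b r) = (S.s (S.b r), S.t (S.b r)) := by rw [hg]
    refine ⟨g (S.a r), hmem _, g (S.b r), hmem _, ?_, by rw [ha]; rfl, ?_, δ, hδ, ?_, ?_⟩
    · intro h; exact S.ab_ne r (hginj h)
    · rw [hb]; exact (S.tie r).symm
    · intro x hx1 hx2
      have hx1' : S.X r - δ < x := hx1
      have hx2' : x < S.X r := hx2
      have hx : dist x (S.X r) < δ := by rw [Real.dist_eq, abs_lt]; constructor <;> linarith
      have hs := S.hs r
      have htie := S.tie r
      apply subset_closure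
      refine ⟨⟨g (S.a r), hmem _, rfl⟩, ?_⟩
      rw [hlev, ha]
      refine Eq.trans (congrArg Finset.card ?_) (hcnt r)
      ext c
      simp only [Finset.mem_filter, Finset.mem_univ, true_and]
      show S.s c * x + S.t c < S.s (S.a r) * x + S.t (S.a r) ↔ _
      by_cases hca : c = S.a r
      · subst hca; simp
      by_cases hcb : c = S.b r
      · rw [hcb]
        constructor
        · intro h; exfalso; nlinarith
        · intro h; exfalso; linarith
      · exact (hball hx c hca hcb).1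
    · intro x hx1 hx2
      have hx1' : S.X r < x := hx1
      have hx2' : x < S.X r + δ := hx2
      have hx : dist x (S.X r) < δ := by rw [Real.dist_eq, abs_lt]; constructor <;> linarith
      have hs := S.hs r
      have htie := S.tie r
      apply subset_closure
      refine ⟨⟨g (S.b r), hmem _, rfl⟩, ?_⟩
      rw [hlev, hb]
      refine Eq.trans (congrArg Finset.card ?_) (hcnt r)
      ext c
      simp only [Finset.mem_filter, Finset.mem_univ, true_and]
      show S.s c * x + S.t c < S.s (S.b r) * x + S.t (S.b r) ↔ _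
      by_cases hca : c = S.a r
      · rw [hca]
        constructor
        · intro h; exfalso; nlinarith
        · intro h; exfalso; linarith
      by_cases hcb : c = S.b r
      · rw [hcb]
        constructor
        · intro h; exfalso; linarith
        · intro h; exfalso; linarith
      · exact (hball hx c hca hcb).2
  set G : R → ℝ × ℝ := fun r => (S.X r, S.s (S.a r) * S.X r + S.t (S.a r)) with hG
  have hGinj : Function.Injective G := by
    intro r r' h
    exact S.hX (congrArg Prod.fst h)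
  calc Fintype.card R = (Set.range G).ncard := by
        rw [← Set.image_univ, Set.ncard_image_of_injective _ hGinj, Set.ncard_univ,
          Nat.card_eq_fintype_card]
    _ ≤ complexity Γ k := by
        unfold complexity
        apply Set.ncard_le_ncard _ (vertices_finite Γ k)
        rintro _ ⟨r, rfl⟩
        exact hver r

/-- no three lines of the family meet in a point -/
def NoThree (Γ : Finset (ℝ × ℝ)) : Prop :=
  ∀ l ∈ Γ, ∀ m ∈ Γ, ∀ j ∈ Γ, l ≠ m → l ≠ j → m ≠ j →
    ∀ x : ℝ, ¬ (height l x = height m x ∧ height m x = height j x)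

theorem exists_family {N E P D : ℕ} (h : HasD N E P D) (k n : ℕ) (h1 : N ≤ k + 1)
    (h2 : N + k + 1 ≤ n) :
    ∃ Γ : Finset (ℝ × ℝ), Γ.card = n ∧ (Γ.image Prod.fst).card ≤ D ∧ NoThree Γ ∧
      E ≤ complexity Γ k := by
  classical
  obtain ⟨ι, R, _, _, κ, C, T, -, hT, hTD, h3, h4, h5, h6⟩ := h
  obtain ⟨i₀⟩ : Nonempty ι := Fintype.card_pos_iff.mp (by omega)
  obtain ⟨C', hC'⟩ := padS C (C.s i₀) (n - N - (k + 1 - κ)) (k + 1 - κ)
  have e1 : κ + (k + 1 - κ) = k + 1 := by omega
  have key : ∀ (κ' : ℕ) (C'' : Cert (ι ⊕ (Fin (n - N - (k + 1 - κ)) ⊕ Fin (k + 1 - κ))) R κ' P),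
      κ' = k + 1 → C''.s = Sum.elim C.s (fun _ => C.s i₀) →
      ∃ Γ : Finset (ℝ × ℝ), Γ.card = n ∧ (Γ.image Prod.fst).card ≤ D ∧ NoThree Γ ∧
        E ≤ complexity Γ k := by
    rintro κ' C'' rfl hC''
    obtain ⟨S, hS, hsim⟩ := regularize C''
    set g : (ι ⊕ (Fin (n - N - (k + 1 - κ)) ⊕ Fin (k + 1 - κ))) → ℝ × ℝ :=
      fun i => (S.s i, S.t i) with hg
    have hginj : Function.Injective g := by
      intro i j hij
      by_contra hne
      simp only [hg, Prod.mk.injEq] at hij
      exact hsim.2 i j hne hij.1 hij.2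
    refine ⟨Finset.univ.image g, ?_, ?_, ?_, ?_⟩
    · rw [Finset.card_image_of_injective _ hginj, Finset.card_univ]
      simp only [Fintype.card_sum, Fintype.card_fin, h3]
      omega
    · refine (Finset.card_le_card ?_).trans hTD
      intro x hx
      rw [Finset.image_image, Finset.mem_image] at hx
      obtain ⟨i, -, rfl⟩ := hx
      show S.s i ∈ T
      rw [hS, hC'']
      rcases i with i | i
      · exact hT i
      · exact hT i₀
    · intro l hl m hm j hj hlm hlj hmj x hx
      rw [Finset.mem_image] at hl hm hj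
      obtain ⟨a, -, rfl⟩ := hl
      obtain ⟨b, -, rfl⟩ := hm
      obtain ⟨c, -, rfl⟩ := hj
      exact hsim.1 a b c (fun h => hlm (by rw [h])) (fun h => hlj (by rw [h]))
        (fun h => hmj (by rw [h])) x hx.1 hx.2
    · rw [← h4]
      exact complexity_ge S g hg hginj _ (fun l => by simp)
  exact key _ C' e1 hC'

/-- the growth factor -/
noncomputable def ρ : ℝ := 17 / 16 * (1000 / 1001) ^ 2

lemma ρ_pos : 0 < ρ := by unfold ρ; norm_num

lemma iter (s : ℕ) : ∃ N E P, 1 ≤ N ∧ 1 ≤ E ∧ HasD N E P (24 * 52 ^ s) ∧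
    ρ ^ s * 51 * N ≤ 24 * E := by
  induction s with
  | zero => exact ⟨24, 51, 4, by norm_num, by norm_num, by simpa using hasD_base, by norm_num⟩
  | succ s ih =>
    obtain ⟨N, E, P, hN, hE, h, hr⟩ := ih
    obtain ⟨Rz, hRz, hc⟩ := HasD.comp has_base h (by norm_num) hE
    have h1 := hc 6000 (6000000 * Rz) (by norm_num) (by omega)
    have hD : 24 + 51 * (24 * 52 ^ s) ≤ 24 * 52 ^ (s + 1) := by
      have : 1 ≤ 52 ^ s := Nat.one_le_pow _ _ (by norm_num)
      rw [pow_succ]
      omega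
    have mono : ∀ {N E P D D' : ℕ}, HasD N E P D → D ≤ D' → HasD N E P D' := by
      rintro N E P D D' ⟨ι, R, i1, i2, κ, C, T, a1, a2, a3, a4⟩ hDD
      exact ⟨ι, R, i1, i2, κ, C, T, a1, a2, a3.trans hDD, a4⟩
    refine ⟨_, _, _, ?_, ?_, mono h1 hD, ?_⟩
    · have : 1 ≤ Rz * 6000 + 6000000 * Rz := by omega
      have h2 : 0 < N * (Rz * 6000 + 6000000 * Rz) * (2 * 6000 + 3 * 4) := by positivity
      omega
    · have h2 : 0 < 6000 * (6000000 * Rz) * E := by positivity
      omega
    · push_cast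
      have h2 : (0:ℝ) ≤ Rz := by positivity
      have h3 : (0:ℝ) ≤ ρ := ρ_pos.le
      have h4 := mul_le_mul_of_nonneg_left hr (mul_nonneg h3 (mul_nonneg (by norm_num : (0:ℝ) ≤ 24 * 6006000 * 12012) h2))
      have e1 : ρ ^ (s + 1) * 51 * (24 * (N * (Rz * 6000 + 6000000 * Rz) * 12012))
          = ρ * (24 * 6006000 * 12012 * (Rz:ℝ)) * (ρ ^ s * 51 * N) := by
        rw [pow_succ]; ring
      rw [e1]
      refine h4.trans (le_of_eq ?_)
      unfold ρ
      ring

lemma fill (s : ℕ) : ∃ m₀ : ℕ, ∀ m ≥ m₀, ∃ N E P, HasD N E P (24 * 52 ^ (s + 1)) ∧ N ≤ m ∧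
    17 / 16 * ρ ^ (s + 1) * m ≤ E := by
  obtain ⟨N, E, P, hN, hE, h, hr⟩ := iter s
  obtain ⟨Rz, hRz, hc⟩ := HasD.comp has_base h (by norm_num) hE
  set u : ℕ := 24 * N * 12012 with hu
  have hu0 : 0 < u := by omega
  refine ⟨u * (1001 * Rz * 6000), fun m hm => ?_⟩
  set V : ℕ := m / u with hV
  have hV1 : 1001 * Rz * 6000 ≤ V := by
    rw [hV, Nat.le_div_iff_mul_le hu0, mul_comm]
    exact hm
  have huV : u * V ≤ m := Nat.mul_div_le m u
  have hm2 : m ≤ 2 * (u * V) := by
    have h1 := Nat.lt_mul_div_succ m hu0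
    rw [← hV] at h1
    have h2 : 1 ≤ V := by omega
    nlinarith
  obtain ⟨V₁, hV₁⟩ : ∃ V₁, V = Rz * 6000 + V₁ := ⟨V - Rz * 6000, by omega⟩
  have hV₁' : 1000 * V ≤ 1001 * V₁ := by omega
  have h1 := hc 6000 V₁ (by norm_num) (by omega)
  have hD : 24 + 51 * (24 * 52 ^ s) ≤ 24 * 52 ^ (s + 1) := by
    have : 1 ≤ 52 ^ s := Nat.one_le_pow _ _ (by norm_num)
    rw [pow_succ]
    omega
  have mono : ∀ {N E P D D' : ℕ}, HasD N E P D → D ≤ D' → HasD N E P D' := by
    rintro N E P D D' ⟨ι, R, i1, i2, κ, C, T, a1, a2, a3, a4⟩ hDD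
    exact ⟨ι, R, i1, i2, κ, C, T, a1, a2, a3.trans hDD, a4⟩
  refine ⟨_, _, _, mono h1 hD, ?_, ?_⟩
  · rw [← hV₁]
    refine le_trans (le_of_eq ?_) huV
    rw [hu]; ring
  · push_cast
    have e1 : (m:ℝ) ≤ 2 * ((24 * N * 12012) * V) := by
      have : ((m:ℕ):ℝ) ≤ ((2 * (u * V) : ℕ) : ℝ) := by exact_mod_cast hm2
      rw [hu] at this; push_cast at this; exact this
    have e2 : (1000:ℝ) * V ≤ 1001 * V₁ := by exact_mod_cast hV₁'
    have h3 : (0:ℝ) ≤ ρ := ρ_pos.le
    have h4 : (0:ℝ) ≤ ρ ^ s := pow_nonneg h3 _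
    have hV0 : (0:ℝ) ≤ V := by positivity
    have h5 : 17 / 16 * ρ ^ (s + 1) * m ≤ 17 / 16 * ρ ^ (s + 1) * (2 * ((24 * N * 12012) * V)) :=
      mul_le_mul_of_nonneg_left e1 (by positivity)
    have h6 : 17 / 16 * ρ ^ (s + 1) * (2 * ((24 * N * 12012) * V)) =
        (ρ ^ s * 51 * N) * (17 / 16 * ρ / 51 * 2 * 24 * 12012 * V) := by
      rw [pow_succ]; ring
    have h7 : (ρ ^ s * 51 * N) * (17 / 16 * ρ / 51 * 2 * 24 * 12012 * V) ≤
        (24 * E) * (17 / 16 * ρ / 51 * 2 * 24 * 12012 * V) :=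
      mul_le_mul_of_nonneg_right hr (by positivity)
    have h8 : (24 * (E:ℝ)) * (17 / 16 * ρ / 51 * 2 * 24 * 12012 * V) =
        51 * 6000 / 1001 * E * (1000 * V) := by
      unfold ρ; ring
    have h9 : 51 * 6000 / 1001 * (E:ℝ) * (1000 * V) ≤ 51 * 6000 / 1001 * E * (1001 * V₁) :=
      mul_le_mul_of_nonneg_left e2 (by positivity)
    linarith [h5, h6, h7, h8, h9]

lemma ρ_pow : (52:ℝ) ≤ ρ ^ 70 := by
  unfold ρ
  norm_num

/-- **Lower bound.** -/
theorem lower (D : ℕ) (hD : 2 ≤ D) : ∃ k₀ : ℕ, ∀ n k : ℕ, k₀ ≤ k → k + k₀ ≤ n →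
    ∃ Γ : Finset (ℝ × ℝ), Γ.card = n ∧ (Γ.image Prod.fst).card ≤ D ∧ NoThree Γ ∧
      1 / 4 * (D:ℝ) ^ ((1:ℝ) / 70) * (min k (n - k) : ℕ) ≤ complexity Γ k := by
  have hD0 : (0:ℝ) < D := by
    have : 0 < D := by omega
    exact_mod_cast this
  have hpow : (0:ℝ) < (D:ℝ) ^ ((1:ℝ) / 70) := Real.rpow_pos_of_pos hD0 _
  by_cases hs : D < 1248
  · refine ⟨5, fun n k h1 h2 => ?_⟩
    set m := min (k + 1) (n - k - 1) with hm
    have hm1 : m ≤ k + 1 := min_le_left _ _
    have hm2 : m ≤ n - k - 1 := min_le_right _ _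
    have hm3 : min k (n - k) ≤ m + 1 := by omega
    have hm4 : 4 ≤ m := by omega
    obtain ⟨Γ, g1, g2, g3, g4⟩ := exists_family (hasD_grid (m / 2) (by omega)) k n (by omega)
      (by omega)
    refine ⟨Γ, g1, g2.trans hD, g3, ?_⟩
    have h3 : (D:ℝ) ^ ((1:ℝ) / 70) ≤ 6 / 5 := by
      have h4 : (D:ℝ) ≤ (6 / 5 : ℝ) ^ (70:ℕ) := by
        have : (D:ℝ) ≤ 1248 := by exact_mod_cast hs.le
        refine this.trans ?_
        norm_num
      calc (D:ℝ) ^ ((1:ℝ) / 70) ≤ ((6 / 5 : ℝ) ^ (70:ℕ)) ^ ((1:ℝ) / 70) :=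
            Real.rpow_le_rpow hD0.le h4 (by norm_num)
        _ = 6 / 5 := by
          rw [← Real.rpow_natCast, ← Real.rpow_mul (by norm_num)]
          norm_num
    have h5 : ((m / 2 : ℕ) : ℝ) ≤ complexity Γ k := by exact_mod_cast g4
    have h6 : (m : ℝ) ≤ 2 * ((m / 2 : ℕ) : ℝ) + 1 := by
      have : m ≤ 2 * (m / 2) + 1 := by omega
      exact_mod_cast this
    have h7 : ((min k (n - k) : ℕ) : ℝ) ≤ m + 1 := by exact_mod_cast hm3
    have h8 : (5:ℝ) ≤ ((min k (n - k) : ℕ) : ℝ) := by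
      have : 5 ≤ min k (n - k) := by omega
      exact_mod_cast this
    have h9 : 1 / 4 * (D:ℝ) ^ ((1:ℝ) / 70) * ((min k (n - k) : ℕ) : ℝ) ≤
        1 / 4 * (6 / 5) * ((min k (n - k) : ℕ) : ℝ) := by gcongr
    linarith
  · push Not at hs
    -- choose the number of compositions
    set a := Nat.log 52 (D / 24) with ha
    have hd : 52 ≤ D / 24 := by omega
    have ha1 : 1 ≤ a := by
      rw [ha]
      exact Nat.log_pos (by norm_num) hd
    have ha2 : 52 ^ a ≤ D / 24 := Nat.pow_log_le_self 52 (by omega)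
    have ha3 : D / 24 < 52 ^ (a + 1) := Nat.lt_pow_succ_log_self (by norm_num) _
    obtain ⟨s, hsa⟩ : ∃ s, a = s + 1 := ⟨a - 1, by omega⟩
    obtain ⟨m₀, hm₀⟩ := fill s
    refine ⟨m₀ + 2, fun n k h1 h2 => ?_⟩
    set m := min (k + 1) (n - k - 1) with hm
    have hm1 : m ≤ k + 1 := min_le_left _ _
    have hm2 : m ≤ n - k - 1 := min_le_right _ _
    have hm3 : min k (n - k) ≤ 2 * m := by omega
    obtain ⟨N, E, P, g1, g2, g3⟩ := hm₀ m (by omega)
    obtain ⟨Γ, f1, f2, f3, f4⟩ := exists_family g1 k n (by omega) (by omega)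
    refine ⟨Γ, f1, f2.trans ?_, f3, ?_⟩
    · rw [← hsa]
      omega
    · have h3 : (D:ℝ) ^ ((1:ℝ) / 70) ≤ 2 * ρ ^ a := by
        have h4 : (D:ℝ) ≤ (2 * ρ ^ a) ^ (70:ℕ) := by
          have h5 : D < 24 * 52 ^ (a + 1) := by omega
          have h6 : (D:ℝ) ≤ 24 * 52 ^ (a + 1) := by exact_mod_cast h5.le
          calc (D:ℝ) ≤ 24 * 52 ^ (a + 1) := h6
            _ = 1248 * 52 ^ a := by rw [pow_succ]; ring
            _ ≤ 2 ^ 70 * (ρ ^ 70) ^ a := by
                apply mul_le_mul (by norm_num) _ (by positivity) (by positivity)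
                exact pow_le_pow_left₀ (by norm_num) ρ_pow a
            _ = (2 * ρ ^ a) ^ (70:ℕ) := by rw [mul_pow, ← pow_mul, ← pow_mul, mul_comm 70 a]
        have h7 : (0:ℝ) ≤ 2 * ρ ^ a := by have := ρ_pos; positivity
        calc (D:ℝ) ^ ((1:ℝ) / 70) ≤ ((2 * ρ ^ a) ^ (70:ℕ)) ^ ((1:ℝ) / 70) :=
              Real.rpow_le_rpow hD0.le h4 (by norm_num)
          _ = 2 * ρ ^ a := by
            rw [← Real.rpow_natCast, ← Real.rpow_mul h7]
            norm_num
      have h5 : (E : ℝ) ≤ complexity Γ k := by exact_mod_cast f4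
      have h6 : ((min k (n - k) : ℕ) : ℝ) ≤ 2 * m := by exact_mod_cast hm3
      rw [← hsa] at g3
      have hρa : (0:ℝ) ≤ ρ ^ a := pow_nonneg ρ_pos.le _
      have hm0 : (0:ℝ) ≤ m := by positivity
      calc 1 / 4 * (D:ℝ) ^ ((1:ℝ) / 70) * ((min k (n - k) : ℕ) : ℝ)
          ≤ 1 / 4 * (2 * ρ ^ a) * (2 * m) := by gcongr
        _ = ρ ^ a * m := by ring
        _ ≤ 17 / 16 * ρ ^ a * m := by nlinarith [mul_nonneg hρa hm0]
        _ ≤ E := g3
        _ ≤ _ := h5

end Pool.Agent.Y375.FD
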